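import Pool.Agent.W97.KE.Stm

/-!
Project KE: cyclotomic characters (S_SIG).
-/

set_option autoImplicit false

namespace Pool.Agent.W174.KE

open Pool.Agent.W97.KE

theorem normal_gen (k : Type) [Field k] : Normal k (AlgebraicClosure k) :=
  IsAlgClosure.normal k (AlgebraicClosure k)

theorem normal_Qb : Normal ℚ Qb := by
  have h2 := normal_gen ℚ
  convert h2
  exact Subsingleton.elim _ _

theorem pow_congr' {N : ℕ} {z : Qb} (hz : z ^ N = 1) {a b : ℕ}
    (h : (a : ZMod N) = (b : ZMod N)) : z ^ a = z ^ b := by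
  rw [ZMod.natCast_eq_natCast_iff] at h
  rw [pow_eq_pow_mod a hz, pow_eq_pow_mod b hz]
  congr 1

theorem exists_prim (N : ℕ) (hN : 1 ≤ N) : ∃ ζ : Qb, IsPrimitiveRoot ζ N := by
  have : NeZero N := ⟨by omega⟩
  have : NeZero ((N : ℕ) : Qb) := ⟨by exact_mod_cast (by omega : N ≠ 0)⟩
  exact HasEnoughRootsOfUnity.exists_primitiveRoot Qb N

theorem isSig_iff {N : ℕ} (hN : 1 ≤ N) {ζ : Qb} (hζ : IsPrimitiveRoot ζ N) (u : (ZMod N)ˣ)
    (h : GQ) (hh : h ζ = ζ ^ (u : ZMod N).val) : IsSig N u h := by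
  have : NeZero N := ⟨by omega⟩
  intro z hz
  obtain ⟨i, -, rfl⟩ := hζ.eq_pow_of_pow_eq_one hz
  rw [map_pow, hh, ← pow_mul, ← pow_mul, mul_comm]

theorem s_sig : S_SIG := by
  refine ⟨?_, ?_, ?_, ?_⟩
  · intro N hN u
    obtain ⟨ζ, hζ⟩ := exists_prim N hN
    have h1 : IsPrimitiveRoot (ζ ^ (u : ZMod N).val) N :=
      hζ.pow_of_coprime _ (ZMod.val_coe_unit_coprime u)
    have h2 : minpoly ℚ ζ = minpoly ℚ (ζ ^ (u : ZMod N).val) := by
      rw [← Polynomial.cyclotomic_eq_minpoly_rat hζ (by omega),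
        ← Polynomial.cyclotomic_eq_minpoly_rat h1 (by omega)]
    have h3 : IsConjRoot ℚ (ζ ^ (u : ZMod N).val) ζ := h2.symm
    have := normal_Qb
    obtain ⟨σ, hσ⟩ := isConjRoot_iff_exists_algEquiv.1 h3
    exact ⟨σ, isSig_iff hN hζ u σ hσ⟩
  · intro N hN h
    have : NeZero N := ⟨by omega⟩
    obtain ⟨ζ, hζ⟩ := exists_prim N hN
    have h1 : IsPrimitiveRoot (h ζ) N := hζ.map_of_injective h.injective
    obtain ⟨i, hi, hi2⟩ := hζ.eq_pow_of_pow_eq_one h1.pow_eq_one
    rw [← hi2] at h1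
    have h3 : i.Coprime N := (hζ.pow_iff_coprime (by omega) i).1 h1
    refine ⟨ZMod.unitOfCoprime i h3, isSig_iff hN hζ _ h ?_⟩
    rw [ZMod.coe_unitOfCoprime, ZMod.val_natCast_of_lt hi, hi2]
  · intro N hN u v h g hu hv
    have : NeZero N := ⟨by omega⟩
    refine ⟨?_, ?_, ?_⟩
    · intro z hz
      rw [AlgEquiv.mul_apply, hv z hz, map_pow, hu z hz, ← pow_mul]
      apply pow_congr' hz
      push_cast
      simp only [ZMod.natCast_val, ZMod.cast_id', id]
    · intro z hz
      have h1 : h (z ^ ((u⁻¹ : (ZMod N)ˣ) : ZMod N).val) = z := by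
        rw [map_pow, hu z hz, ← pow_mul]
        conv_rhs => rw [← pow_one z]
        apply pow_congr' hz
        push_cast
        simp only [ZMod.natCast_val, ZMod.cast_id', id]
        exact Units.mul_inv u
      have h2 : h.symm z = z ^ ((u⁻¹ : (ZMod N)ˣ) : ZMod N).val := by
        rw [AlgEquiv.symm_apply_eq, h1]
      exact h2
    · constructor
      · intro huv z hz
        subst huv
        rw [AlgEquiv.mul_apply, hu z hz, ← hv z hz]
        exact g.symm_apply_apply z
      · intro hz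
        obtain ⟨ζ, hζ⟩ := exists_prim N hN
        have h1 := hz ζ hζ.pow_eq_one
        rw [AlgEquiv.mul_apply] at h1
        have h2 : h ζ = g ζ := by
          have := congrArg g h1
          rw [← this]
          exact (g.apply_symm_apply (h ζ)).symm
        rw [hu ζ hζ.pow_eq_one, hv ζ hζ.pow_eq_one] at h2
        have h3 := hζ.pow_inj (ZMod.val_lt _) (ZMod.val_lt _) h2
        exact Units.ext (ZMod.val_injective N h3)
  · intro N M hN hd u h hu z hz
    have : NeZero N := ⟨by omega⟩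
    have hM : 1 ≤ M := Nat.pos_of_dvd_of_pos hd (by omega)
    have : NeZero M := ⟨by omega⟩
    have hzN : z ^ N = 1 := by
      obtain ⟨c, rfl⟩ := hd
      rw [pow_mul, hz, one_pow]
    rw [hu z hzN]
    apply pow_congr' hz
    rw [ZMod.natCast_val, ZMod.natCast_val]
    rw [ZMod.unitsMap_def]
    simp

end Pool.Agent.W174.KE
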